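import Pool.Agent.helper76.T7.CHX
import Pool.Agent.helper71.T7.CTA
import Pool.Agent.helper47.T7.CTB
import Pool.Agent.helper40.T7.CPF
import Pool.Agent.helper24.T7.CPS
import Pool.Agent.helper23.T7.CPA
import Pool.Agent.helper48.T7.CSD
import Pool.Agent.helper80.T7.CGT
import Pool.Agent.helper33.T7.C7S
import Pool.Agent.helper23.T7.C7F
import Pool.Agent.helper8.T6.AllC
import Pool.Agent.helper82.T6.All
import Pool.Agent.helper95.T6.AllE

set_option autoImplicit false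

/-!
# T7, block C: all rows together
-/

namespace Pool.Agent.T7

open NumberField Pool.Agent.helper3.FT Pool.Agent.helper47.RA Pool.Agent.T5 Pool.Agent.T6

/-- `TD1_stmt`, closed -/
theorem allTD1c : TD1_stmt := allTD1 allWG allLOCA allLOCB

/-- `OFD_stmt` of T6L, closed -/
theorem allOFD : Pool.Agent.T6L.OFD_stmt :=
  Pool.Agent.T6L.OFD all_AELE (Pool.Agent.T6L.ODC Pool.Agent.helper26.T5.AllH.aHID Pool.Agent.T6L.OCO
    (Pool.Agent.T6L.OLM (Pool.Agent.T6L.OPR Pool.Agent.helper26.T5.lpa) Pool.Agent.T6L.OPM) Pool.Agent.T6L.OPM)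
    Pool.Agent.helper26.T5.hcl
    (Pool.Agent.T6L.OGA Pool.Agent.helper26.T5.lemb Pool.Agent.helper26.T5.lpr Pool.Agent.helper26.T5.hln Pool.Agent.helper26.T5.hpr)
    (Pool.Agent.T6L.OGT Pool.Agent.helper26.T5.lemb Pool.Agent.helper26.T5.lpr Pool.Agent.helper26.T5.hln
      Pool.Agent.helper26.T5.AllH.aHSQ) Pool.Agent.T6L.OAR

/-- **CND7**, from the second moment `SM_stmt` -/
theorem CND7_of (hSM : SM_stmt) : CND7_stmt := by
  obtain ⟨ηA, hA0, _, hA⟩ := CTA allTD1c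
  obtain ⟨ηB, hB0, _, hB⟩ := CTB allTWE
  exact C7F C7S allTD1c hSM ηA ηB hA0 hB0 hA hB (CPA CHX allUB allOFD CPF CPS)
    (CGT CHX (Pool.Agent.T6L.OSS Pool.Agent.T6L.OSR) allUB allOFD Pool.Agent.T6L.OAR CSD)

end Pool.Agent.T7
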