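import Pool.Agent.helper88.T7.Final

set_option autoImplicit false

/-!
# T7 (MP_16912e_nt): the classes counted in `ASY7_stmt` at `Y = κ √N` are a positive proportion of all classes of order 5
-/

namespace Pool.Agent.T7

open Finset NumberField Pool.Agent.helper3.FT Pool.Agent.helper47.RA Pool.Agent.T5 Pool.Agent.T6

open Classical in
/-- the separated classes of norm at most `κ √N` are a positive proportion of all classes of order 5 -/
def PRP7_stmt : Prop := ∃ A₀ : ℝ, 1 ≤ A₀ ∧ ∀ A : ℝ, A₀ ≤ A → ∃ κ c N₀ : ℝ, 0 < κ ∧ 0 < c ∧ ∀ (g : ℤ → ℝ → ℕ) (f : ℤ → ℕ),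
  (∀ (K : Type) [Field K] [NumberField K], Module.finrank ℚ K = 2 → ∀ Y : ℝ, g (NumberField.discr K) Y = (SP7 K A Y).ncard) →
  (∀ (K : Type) [Field K] [NumberField K], Module.finrank ℚ K = 2 →
    f (NumberField.discr K) = Nat.card {x : ClassGroup (𝓞 K) // x ^ 5 = 1}) →
  ∀ N : ℝ, N₀ ≤ N → c * ∑ D ∈ (Icc (-⌊N⌋) (-1)).filter IsFund, ((f D : ℝ) - 1) ≤
    ∑ D ∈ (Icc (-⌊N⌋) (-1)).filter IsFund, (g D (κ * √N) : ℝ)

theorem PRP7 (h1 : ASY7_stmt) (hU : UB_stmt) : PRP7_stmt := by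
  classical
  obtain ⟨A₀, hA₀, h2⟩ := h1 (1 / 2) (by norm_num)
  obtain ⟨C, hC, h3⟩ := hU
  refine ⟨A₀, hA₀, fun A hA => ?_⟩
  obtain ⟨κ, N₁, hκ, h4⟩ := h2 A hA
  refine ⟨κ, κ / (4 * (C + 1)), max N₁ (max 1 (κ⁻¹ ^ (10 : ℝ))), hκ, by positivity, fun g f hg hf N hN => ?_⟩
  have hN1 : N₁ ≤ N := (le_max_left _ _).trans hN
  have hN2 : 1 ≤ N := (le_max_left _ _).trans ((le_max_right _ _).trans hN)
  have hN3 : κ⁻¹ ^ (10 : ℝ) ≤ N := (le_max_right _ _).trans ((le_max_right _ _).trans hN)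
  have hN0 : 0 < N := by linarith
  have e1 : N ^ (2 / 5 : ℝ) ≤ κ * √N := by
    have e2 : κ⁻¹ ≤ N ^ (1 / 10 : ℝ) := by
      have e3 := Real.rpow_le_rpow (by positivity) hN3 (show (0 : ℝ) ≤ 1 / 10 by norm_num)
      rwa [← Real.rpow_mul (by positivity), show (10 : ℝ) * (1 / 10) = 1 by norm_num, Real.rpow_one] at e3
    have e4 : √N = N ^ (1 / 10 : ℝ) * N ^ (2 / 5 : ℝ) := by
      rw [← Real.rpow_add hN0, Real.sqrt_eq_rpow]
      norm_num
    have e5 : 0 ≤ N ^ (2 / 5 : ℝ) := by positivity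
    have e6 : 1 ≤ κ * N ^ (1 / 10 : ℝ) := by
      have e7 := mul_le_mul_of_nonneg_left e2 hκ.le
      rwa [mul_inv_cancel₀ hκ.ne'] at e7
    rw [e4, ← mul_assoc]
    nlinarith
  have h5 := h4 g hg N (κ * √N) hN1 e1 le_rfl
  rw [abs_le] at h5
  have e8 : κ * √N * √N = κ * N := by rw [mul_assoc, Real.mul_self_sqrt hN0.le]
  rw [e8] at h5
  have e9 : 1 ≤ 36 / Real.pi ^ 3 := by
    rw [le_div_iff₀ (by positivity), one_mul]
    have p1 : Real.pi < 3.15 := Real.pi_lt_d2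
    have p2 : 0 < Real.pi := Real.pi_pos
    calc Real.pi ^ 3 ≤ (3.15 : ℝ) ^ 3 := by gcongr
      _ ≤ 36 := by norm_num
  have h6 : κ * N / 2 ≤ ∑ D ∈ (Icc (-⌊N⌋) (-1)).filter IsFund, (g D (κ * √N) : ℝ) := by
    have e10 : 0 < κ * N := by positivity
    nlinarith [h5.1]
  have h7 := h3 f hf (⌊N⌋₊ + 1) ((Icc (-⌊N⌋) (-1)).filter IsFund) (fun D hD => by
    rw [Finset.mem_filter, Finset.mem_Icc] at hD
    have e11 : (⌊N⌋₊ : ℤ) = ⌊N⌋ := Int.natCast_floor_eq_floor hN0.le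
    refine ⟨hD.2, by omega, ?_⟩
    rw [abs_of_neg (by omega)]
    push_cast
    rw [e11]
    omega)
  have h8 : ((⌊N⌋₊ + 1 : ℕ) : ℝ) ≤ 2 * N := by
    push_cast
    have := Nat.floor_le hN0.le
    linarith
  have h9 : ∑ D ∈ (Icc (-⌊N⌋) (-1)).filter IsFund, ((f D : ℝ) - 1) ≤ C * (2 * N) := by
    refine le_trans (Finset.sum_le_sum fun D _ => sub_le_self _ zero_le_one) (h7.trans ?_)
    exact mul_le_mul_of_nonneg_left h8 hC
  refine le_trans ?_ h6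
  have h10 : κ / (4 * (C + 1)) * ∑ D ∈ (Icc (-⌊N⌋) (-1)).filter IsFund, ((f D : ℝ) - 1) ≤
      κ / (4 * (C + 1)) * (C * (2 * N)) := mul_le_mul_of_nonneg_left h9 (by positivity)
  refine h10.trans ?_
  rw [div_mul_eq_mul_div, div_le_div_iff₀ (by positivity) (by norm_num)]
  nlinarith [mul_pos hκ hN0, mul_nonneg hC (mul_pos hκ hN0).le]

/-- closed -/
theorem prop7 : PRP7_stmt := PRP7 final7.1 allUB

end Pool.Agent.T7
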