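import Pool.Agent.helper46.T6L.AllO
import Pool.Agent.helper8.T7.SpecSM
import Pool.Agent.helper85.T7.Defs
import Pool.Agent.helper52.T5.SFP
import Pool.Agent.helper5.T5.STW

set_option autoImplicit false

/-!
# T7 (MP_16912e_nt), block C: central tuples with a nontrivial conductor

Output: `CND7_stmt` (`Pool/Agent/helper85/T7/Defs.lean`): the central tuples with `fw w t ≠ 0` and `dis t` not fundamental are at most `(C/w + ε) Y Y₂`, `Y₂ = R √N`, `Y ≤ κ₀ √N`.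
Notation: `S = Y Y₂`, `ρ = S / N` (`= R Y / √N`), `dis t = D₀ f²`.  Types of the tuples:
(A) some prime `p ∣ f` with `p² ρ ≤ A` (CTA); (B) some prime `p ∣ f` with `1 ≤ p² ρ`, `p ≤ ρ^(-1.05)` divides `Z Λ` (CTB); (C) `f = p` prime, `1 < p² ρ`, `p ≤ ρ^(-1.05)`, `p ∤ Z Λ` (`SM_stmt`, block SM of helper8, the second moment);
(D) `f` composite, all its primes with `A < p² ρ`, prime to `Z Λ` (CPA); (E) some prime `p ∣ f` with `p > ρ^(-1.05)` (CGT).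

RULES.  Row `t7:XXX` is a file `Pool/Agent/<seat>/T7/XXX.lean`: `import Pool.Agent.helper46.T7.SpecC`, `set_option autoImplicit false`,
`namespace Pool.Agent.T7`, the three open lines of this file, and the theorem line of the lock note.  Other rows only as hypotheses.
Auxiliary lemmas are prefixed `XXX_`.  No `convert`, `congr!`, `native_decide`, no double quotes.

AVAILABLE (imported closed theorems): block A of T5 (`Pool/Agent/helper3/T5/AllA.lean`): `AIST : AIST_stmt`, `ADIN : ADIN_stmt`, `AGEX : AGEX_stmt`, `AFUL`, `ATPL`, `all_ASUR : ASUR_stmt`, `all_AELE`, `all_ALG`;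
block L of T5 (`Pool/Agent/helper26/T5/AllL.lean`, namespace `Pool.Agent.helper26.T5.AllL`): `aLP : LP`, `aLYT : LYT`, `aLAW : LAW`, ..; `Pool.Agent.helper26.T5.lemb : LEMB`; block H (`Pool/Agent/helper26/T5/AllH.lean`): `aHGA : HGA`; `hcl : HCL`;
block O of T6L (`Pool/Agent/helper46/T6L/AllO.lean` and the files it imports): `OFD`, `OSD`, `OSS`, `OSR`, `OAR`; `SFP AIST : SFP_stmt`, `STW AIST : STW_stmt` of T5; `HSD_fld` (`Pool/Agent/helper68/T5/HSD.lean`).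
-/

namespace Pool.Agent.T7

open Finset NumberField Pool.Agent.helper3.FT Pool.Agent.helper47.RA Pool.Agent.T5 Pool.Agent.T6
open Pool.Agent.helper26.T5 (nn LEMB LP HCL HGA LYT LAW)
open Pool.Agent.helper28.LT (rad)

/-- a function `h D = #Cl(D)[5]` for every quadratic field -/
abbrev IsH7 (h : ℤ → ℕ) : Prop := Pool.Agent.T6L.IsH h

/-- the tuples of block C -/
structure TQ (N Y X : ℝ) (t : Tpl) : Prop where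
  tt : IsT t
  z1 : 0 < t.2.2.2
  z2 : (t.2.2.2 : ℝ) ≤ Y
  l1 : 0 < lam t
  l2 : (lam t : ℝ) ≤ X
  d1 : N / 2 < -(dis t : ℝ)
  d2 : -(dis t : ℝ) ≤ N

/-- **CHX** (short to medium).  The function `h` exists.
PROOF.  Let `K, K'` be quadratic number fields with `discr K = discr K'`, `Q : QF K`, `Q' : QF K'` (`exists_QF`, `Pool/Agent/helper3/FT/Fin.lean`; `Q.D = discr K`).  `Q.t ^ 2 = Q.t`, `Q.D = Q.t + 4 Q.k` give `Q.t = Q'.t`, `Q.k = Q'.k`.  Every `a : 𝓞 K` is `x + (Q.Y a) ω` with a unique integer `x` (`Q.exists_re`, `Q.Y_add`, `Q.Y_int`),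
so `x + y ω ↦ x + y ω'` is a ring isomorphism `𝓞 K ≃+* 𝓞 K'` (`ω * ω = k + t ω`).  `ClassGroup.mulEquiv` (Mathlib) gives `Cl K ≃* Cl K'`, so the numbers of `x` with `x ^ 5 = 1` agree (`Nat.card_congr`).  Define `h D` as the number for a chosen quadratic field of discriminant `D` (in `Type`) if there is one, otherwise `0`. -/
def CHX_stmt : Prop := ∃ h : ℤ → ℕ, IsH7 h

/-! ## (A), (B): small primes and bad primes -/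

/-- **CTA** (short to medium; from `TD1_stmt`).  Primes with `p² ρ ≤ A`.
PROOF.  `η₁` from TD1; `η = η₁ / 10` (and `≤ 1/100`), `C₁, K` from TD1 with the same `κ, A`.  Fix a prime `p` with `W < p`, `p² S ≤ A N`.  `Rg.r4`: `S ≥ N^(1-η)`, so `p² ≤ A N^η`, `p ≤ √A N^(η/2)`.  Put `N' = N / p²`, `d = p`: `N' d² = N`.
For `N ≥ N₀`: `N' ≥ N^(1-2η) ≥ N₀(TD1)`, `Y₂ ≤ N^η Y ≤ N'^η₁ Y` (`N^η ≤ N^((1-2η) η₁)`), `S ≤ A N'`, `N'^(1-η₁) ≤ N^(1-η₁) ≤ N^(1-η) ≤ S` (if `η₁ > 1`: `N'^(1-η₁) ≤ 1 ≤ S`), `p ≤ N'^η₁`.  TD1 for `{t ∈ F : p² ∣ dis t}` (with `Cen κ (N' d²) Y Y₂ t`; rewrite `N / p² * p² = N`): at most `C₁ S gg K p 1 = C₁ S 2 K / p²` (`primeFactors p = {p}`, `max 2 ((1+1)/2) = 2`).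
Sum over the primes `p > W` (`F` is the union of these subsets, all `p ≤ √A N^(η/2)`): `∑_{n > W} 1/n² ≤ 2/W` for `W ≥ 1` (telescoping, compare `STA_stmt` of T5).  `C = 4 C₁ K`. -/
def CTA_stmt : Prop := TD1_stmt → ∃ η : ℝ, 0 < η ∧ η ≤ 1 / 100 ∧ ∀ κ A : ℝ, 0 < κ → 1 ≤ A → ∃ C N₀ : ℝ, 1 ≤ C ∧
  ∀ N Y Y₂ W : ℝ, N₀ ≤ N → Rg η N Y Y₂ → 1 ≤ W → ∀ F : Finset Tpl,
  (∀ t ∈ F, Cen κ N Y Y₂ t ∧ ∃ p : ℕ, p.Prime ∧ W < p ∧ (p : ℝ) ^ 2 * (Y * Y₂) ≤ A * N ∧ (p : ℤ) ^ 2 ∣ dis t) →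
  (F.card : ℝ) ≤ C / W * (Y * Y₂)

/-- **CTB** (short to medium; from `TWE_stmt` with `e = 1`, and `STW AIST` of T5).  Bad primes.
PROOF.  `η₁` from TWE, `η = min (η₁/2) (1/100)`; `ρ = S/N ≤ 1` (`Rg.r3`), `ρ ≥ N^(-η)` (`Rg.r4`), `X = ρ^(-1.05) ≤ N^(1.05 η) ≤ N^η₁`.  For `t ∈ F` with `p`: `STW AIST`: `p ∣ m g` and (`p ∣ n k` or `p ∣ Z`): this is `BadP p t`; `CC 1 t` is trivial.
TWE (`e = 1`; `η₁`-range: `Rg η` implies `Rg η₁`): for one prime at most `(C₀/p² + C₁ ρ^(3/2) p^(1/4) (1 + p ρ)) S`.  Sum over the primes `p` with `p² ρ ≥ 1`, `p ≤ X`: `∑ 1/p² ≤ 4 ρ^(1/2)` (all integers `p ≥ max 1 ρ^(-1/2)`: `∑_{n ≥ x} 1/n² ≤ 2/x + ..`; `≤ 4/x` for `x ≥ 1`),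
`∑ p^(1/4) ≤ X^(5/4) = ρ^(-1.3125)`, `∑ p^(5/4) ≤ X^(9/4) = ρ^(-2.3625)`: total `≤ (4 C₀ ρ^(1/2) + C₁ (ρ^0.1875 + ρ^0.1375)) S ≤ (4 C₀ + 2 C₁) ρ^(1/8) S` (`ρ ≤ 1`). -/
def CTB_stmt : Prop := TWE_stmt → ∃ η : ℝ, 0 < η ∧ η ≤ 1 / 100 ∧ ∀ κ : ℝ, 0 < κ → κ ≤ 1 → ∃ C N₀ : ℝ, 1 ≤ C ∧
  ∀ N Y Y₂ : ℝ, N₀ ≤ N → Rg η N Y Y₂ → ∀ F : Finset Tpl,
  (∀ t ∈ F, Cen κ N Y Y₂ t ∧ ∃ p : ℕ, p.Prime ∧ p ≠ 2 ∧ N ≤ (p : ℝ) ^ 2 * (Y * Y₂) ∧ (p : ℝ) ≤ (Y * Y₂ / N) ^ (-(1.05 : ℝ)) ∧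
    (p : ℤ) ^ 2 ∣ dis t ∧ ((p : ℤ) ∣ t.2.2.2 ∨ (p : ℤ) ∣ lam t)) →
  (F.card : ℝ) ≤ C * (Y * Y₂ / N) ^ (1 / 8 : ℝ) * (Y * Y₂)

/-! ## (D): composite conductors coprime to `Z` -/

/-- **CPF** (short to medium; from `OFD_stmt` and `UBH_stmt`; compare OSD, `Pool/Agent/helper68/T6L/OSD.lean`).  One conductor coprime to `Z`, all discriminants.
PROOF.  As OSD with `b = 1`: `IsCoprime f Z` gives `ff f Z = gcd (Z, (f rad f)²) = 1` (`ff` of `Pool/Agent/helper46/T6L/SpecO.lean`), `rb f 1 = rad f`, `sl f 1 = lcm (rad f, f) = f` (`rad f ∣ f`), `(1 ^ 5).divisors.card = 1`.  `s` = the set of the `D₀`: `N/2 < |D₀| f² ≤ N`, `√|D₀| ≥ √N/(2f)`.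
OFD with `Y = √N`, `X = R √N`: `2 π √N/(rad f √|D|) ≤ 4 π f/rad f`, `2 π R √N/(f √|D|) ≤ 4 π R`; `f ≥ rad f`: the second factor of OFD is at most `h D 2 · 6^ω (1 + 4π) (f/rad f) ≤ 28 · 7^ω h D f/rad f`, the third at most `12 · 7^ω (1 + 4 π) R`.  UBH: `∑_{D ∈ s} h D ≤ 2 C₀ N/f²` (as in OSD).
Total `≤ C R 49^ω (f/rad f) N/f²`. -/
def CPF_stmt : Prop := Pool.Agent.T6L.UBH_stmt → Pool.Agent.T6L.OFD_stmt → ∃ C : ℝ, 1 ≤ C ∧ ∀ h : ℤ → ℕ, IsH7 h → ∀ (N R : ℝ) (f : ℕ),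
  1 ≤ N → 1 ≤ R → 1 ≤ f → (∀ p : ℕ, p.Prime → p ∣ f → 5 < p) → ∀ F : Finset Tpl,
  (∀ t ∈ F, TQ N (√N) (R * √N) t ∧ IsCoprime (f : ℤ) t.2.2.2 ∧ ∃ D₀ : ℤ, IsFund D₀ ∧ dis t = D₀ * (f : ℤ) ^ 2) →
  (F.card : ℝ) ≤ C * R * (49 ^ f.primeFactors.card / ((f : ℝ) * rad f)) * N

/-- **CPS** (medium; arithmetic, compare OSR, OSS of T6L).  Sum over composite numbers with large primes.
PROOF.  `R₀ = rad f = ∏ p ∈ f.primeFactors, p`.  (1) `R₀` prime, `f = p ^ a`, `a ≥ 2`, `p > P`: `∑_{a ≥ 2} 49/(p^a p) ≤ 98/p³` and `∑_{n > P} 1/n³ ≤ 2/P²`.  (2) `R₀` with at least two primes: for fixed `R₀` the sum of `49^ω/(f R₀)` over the `f ∈ s` with `rad f = R₀` is at most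
`∏_{p ∣ R₀} (49/p) ∑_{a ≥ 1} p^(-a) ≤ ∏_{p ∣ R₀} 98/p²` (`∑_{a ≥ 1} p^(-a) = 1/(p-1) ≤ 2/p`; product over `a : primeFactors → [1, B]` as in OSR, `Pool/Agent/helper58/T6L/OSR.lean`), `ψ(m) = 98^ω(m)/m²`.  `R₀ = p q m`, `p, q` the two smallest primes, `m` coprime to `p q`: `ψ(R₀) = (98/p²)(98/q²) ψ(m)`, `R₀ ↦ (p, q, m)` is injective, so the sum is at most
`(98 ∑_{n > P} 1/n²)² ∑_m ψ(m) ≤ (196/P)² C'` (`∑_m ψ(m) < ∞`: `98^ω(m) ≤ C'' √m` as in OSS, `Pool/Agent/helper15/T6L/OSS.lean`; `card_divisors_le`). -/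
def CPS_stmt : Prop := ∃ C : ℝ, 1 ≤ C ∧ ∀ (P : ℝ) (s : Finset ℕ), 1 ≤ P →
  (∀ f ∈ s, 2 ≤ f ∧ ¬ f.Prime ∧ ∀ p : ℕ, p.Prime → p ∣ f → P < p) →
  ∑ f ∈ s, (49 : ℝ) ^ f.primeFactors.card / ((f : ℝ) * rad f) ≤ C / P ^ 2

/-- **CPA** (short; from the conclusions of CPF, CPS).  All composite conductors.
PROOF.  Choose `f` for every `t ∈ F`, sort `F` by `f` (`Finset.card_eq_sum_card_fiberwise`), CPF for every fibre, CPS for the sum.  `f` is determined by `t` (`ADIN` (1)) but any choice works. -/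
def CPA_stmt : Prop := (∃ h : ℤ → ℕ, IsH7 h) → Pool.Agent.T6L.UBH_stmt → Pool.Agent.T6L.OFD_stmt → CPF_stmt → CPS_stmt → ∃ C : ℝ, 1 ≤ C ∧
  ∀ N R P : ℝ, 1 ≤ N → 1 ≤ R → 1 ≤ P → ∀ F : Finset Tpl, (∀ t ∈ F, TQ N (√N) (R * √N) t ∧
    ∃ (f : ℕ) (D₀ : ℤ), IsFund D₀ ∧ dis t = D₀ * (f : ℤ) ^ 2 ∧ 2 ≤ f ∧ ¬ f.Prime ∧ IsCoprime (f : ℤ) t.2.2.2 ∧
      ∀ p : ℕ, p.Prime → p ∣ f → 5 < p ∧ P < p) →
  (F.card : ℝ) ≤ C * R / P ^ 2 * N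

/-! ## (E): a large prime -/

/-- **CSD** (short to medium, PORT of OSD, `Pool/Agent/helper68/T6L/OSD.lean`).  One conductor, all discriminants, `Λ ≤ R √N`.
PROOF.  The proof of OSD (docstring in `Pool/Agent/helper46/T6L/SpecO.lean`) with `X = R √N` in OFD: the third factor is at most `12 · 7^ω G R (f / sl f b)` (`1 + 4 π R f/sl ≤ (1 + 4π) R f/sl`, `R ≥ 1`, `sl f b ≤ f`); everything else is the same (`Tn` is replaced by `TQ`; here `N/2 < -dis t`). -/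
def CSD_stmt : Prop := Pool.Agent.T6L.UBH_stmt → Pool.Agent.T6L.OFD_stmt → Pool.Agent.T6L.OAR_stmt → ∃ C : ℝ, 1 ≤ C ∧ ∀ h : ℤ → ℕ, IsH7 h →
  ∀ (N R : ℝ) (f : ℕ), 1 ≤ N → 1 ≤ R → 1 ≤ f → (∀ p : ℕ, p.Prime → p ∣ f → 5 < p) → ∀ F : Finset Tpl,
  (∀ t ∈ F, TQ N (√N) (R * √N) t ∧ ∃ D₀ : ℤ, IsFund D₀ ∧ dis t = D₀ * (f : ℤ) ^ 2) → (F.card : ℝ) ≤ C * R * Pool.Agent.T6L.gw f * N

/-- **CGT** (short; from the conclusion of CSD and `OSS_stmt`).  Conductors with a prime factor `> P`.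
PROOF.  As OGL (`Pool/Agent/helper27/T6L/OGL.lean`), only the second half: choose `f_t`, sort `F` by `f_t`, CSD for every fibre, `∑_{f} gw f ≤ C₂/P` by the second part of OSS (`f ≥ 1` because `dis t ≠ 0`). -/
def CGT_stmt : Prop := (∃ h : ℤ → ℕ, IsH7 h) → Pool.Agent.T6L.OSS_stmt → Pool.Agent.T6L.UBH_stmt → Pool.Agent.T6L.OFD_stmt → Pool.Agent.T6L.OAR_stmt →
  CSD_stmt → ∃ C : ℝ, 1 ≤ C ∧ ∀ N R P : ℝ, 1 ≤ N → 1 ≤ R → 1 ≤ P → ∀ F : Finset Tpl, (∀ t ∈ F, TQ N (√N) (R * √N) t ∧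
    ∃ (f : ℕ) (D₀ : ℤ), IsFund D₀ ∧ dis t = D₀ * (f : ℤ) ^ 2 ∧ (∀ p : ℕ, p.Prime → p ∣ f → 5 < p) ∧
      ∃ p : ℕ, p.Prime ∧ p ∣ f ∧ P < p) →
  (F.card : ℝ) ≤ C * R / P * N

/-! ## Assembly -/

/-- **C7S** (short to medium; from `AIST`, `SFP AIST`).  The six types of a tuple.
PROOF.  `dis t = D₀ f²` with `IsFund D₀`, `f ≥ 1`: `Pool.Agent.helper28.LT.exists_fund` and `AIST` (last clauses: `dis t ≡ 0, 1 mod 4`).  `f ≠ 1` (`¬ IsFund (dis t)`), so `f ≥ 2`.  All primes `p ∣ f` satisfy `w < p` (`(SFP AIST).2`), so `5 < p`, and `p² ∣ dis t`.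
If some prime `p ∣ f` has `p² S ≤ N`: type 1; otherwise, if some has `p² S ≤ A N`: type 2; otherwise, if some has `X < p`: type 3.  Otherwise all have `A N < p² S` (so `N < p² S`, `A ≥ 1`, `N ≥ 0`) and `p ≤ X`.  If one of them divides `Z` or `lam t`: type 4.
Otherwise `p ∤ Z lam t` for all `p ∣ f` (`Int.Prime.dvd_mul'`), and `IsCoprime f Z` (`Int.isCoprime_iff_gcd_eq_one`, `Nat.Coprime` by primes).  `f` prime: type 5; `f` not prime: type 6. -/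
def C7S_stmt : Prop := ∀ (w : ℕ) (N S A X : ℝ) (t : Tpl), 5 ≤ w → 1 ≤ A → 0 ≤ N → IsT t → dis t < 0 → fw w t ≠ 0 → ¬ IsFund (dis t) →
  (∃ p : ℕ, p.Prime ∧ w < p ∧ (p : ℝ) ^ 2 * S ≤ N ∧ (p : ℤ) ^ 2 ∣ dis t) ∨
  (∃ p : ℕ, p.Prime ∧ N < (p : ℝ) ^ 2 * S ∧ (p : ℝ) ^ 2 * S ≤ A * N ∧ (p : ℤ) ^ 2 ∣ dis t) ∨
  (∃ (f : ℕ) (D₀ : ℤ), IsFund D₀ ∧ dis t = D₀ * (f : ℤ) ^ 2 ∧ (∀ p : ℕ, p.Prime → p ∣ f → 5 < p) ∧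
    ∃ p : ℕ, p.Prime ∧ p ∣ f ∧ X < p) ∨
  (∃ p : ℕ, p.Prime ∧ p ≠ 2 ∧ N ≤ (p : ℝ) ^ 2 * S ∧ (p : ℝ) ≤ X ∧ (p : ℤ) ^ 2 ∣ dis t ∧ ((p : ℤ) ∣ t.2.2.2 ∨ (p : ℤ) ∣ lam t)) ∨
  (∃ (p : ℕ) (D₀ : ℤ), p.Prime ∧ 5 < p ∧ IsFund D₀ ∧ dis t = D₀ * (p : ℤ) ^ 2 ∧ ¬ (p : ℤ) ∣ t.2.2.2 * lam t ∧
    N < (p : ℝ) ^ 2 * S ∧ (p : ℝ) ≤ X) ∨
  (∃ (f : ℕ) (D₀ : ℤ), IsFund D₀ ∧ dis t = D₀ * (f : ℤ) ^ 2 ∧ 2 ≤ f ∧ ¬ f.Prime ∧ IsCoprime (f : ℤ) t.2.2.2 ∧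
    ∀ p : ℕ, p.Prime → p ∣ f → 5 < p ∧ A * N < (p : ℝ) ^ 2 * S)

/-- **C7F** (medium; assembly).  The hypotheses are `C7S_stmt`, `TD1_stmt`, `SM_stmt` and the conclusions of CTA, CTB, CPA, CGT.
PROOF.  `η` = half of the smallest of `η_A, η_B`, the `η` of SM, the `η` of TD1 and `1/100`.  `κ` fixed; `C` = the maximum of the constant of CTA for `(κ, A = 1)` and `4 C'` (`C'` the constant of TD1 for `κ, A = 1`).  `w < 5`: TD1 with `d = 1` (`Cen κ (N * 1 ^ 2) ..`, `1 ∣ dis`, empty product): `F.card ≤ C' S ≤ (4 C'/w) S`.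
Let `w ≥ 5`.  Given `R, ε`: choose `A ≥ 1` with `C_P R/A ≤ ε/8` (`C_P` of CPA), then `0 < ρ₀ ≤ 1` so small that for `0 < ρ ≤ ρ₀`: `C_A(A) √ρ ≤ ε/8`, `C_B ρ^(1/8) ≤ ε/8`, `C_M ρ^(1/8) ≤ ε/8` (`C_M` of SM for `κ, R`), `C_G R ρ^0.05 ≤ ε/8` (`C_G` of CGT); `κ₀ = ρ₀/R`.
Let `N, Y, F` be given, `Y₂ = R √N`, `S = Y Y₂ = ρ N` with `ρ = R Y/√N ≤ ρ₀ ≤ 1`; `Rg η' N Y Y₂` for the four `η'` (`N ≥ N₀(R)`: `R ≤ N^η`; `Y ≥ N^(1/2-η)`), `Y ≤ √N`; `ρ > 0`.  `lam t ≤ Y₂` (`Cen.l2`, `Cen.d2`), `lam t > 0` (`Cen.l1`), `Z > Y/2 > 0`: `TQ N √N Y₂ t`.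
`F` is the union of the six subsets of `C7S_stmt` (with `N, S, A, X = ρ^(-1.05)`).  1: CTA with `A = 1`, `W = w`: `(C/w) S`.  2: CTA with `A`, `W = √(1/ρ)` (`p² > N/S = 1/ρ`): `C_A(A) √ρ S`.  3: CGT with `P = X`: `C_G R ρ^1.05 N = C_G R ρ^0.05 S`.
4: CTB: `C_B ρ^(1/8) S`.  5: SM (`ρ^(-1/2) < p`, `-(1.05) = -(21/20)`): `C_M ρ^(1/8) S`.  6: CPA with `P = √(A/ρ)`: `C_P R (ρ/A) N = C_P R/A S`. -/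
def C7F_stmt : Prop := C7S_stmt → TD1_stmt → SM_stmt → ∀ (η_A η_B : ℝ), 0 < η_A → 0 < η_B →
  (∀ κ A : ℝ, 0 < κ → 1 ≤ A → ∃ C N₀ : ℝ, 1 ≤ C ∧ ∀ N Y Y₂ W : ℝ, N₀ ≤ N → Rg η_A N Y Y₂ → 1 ≤ W → ∀ F : Finset Tpl,
    (∀ t ∈ F, Cen κ N Y Y₂ t ∧ ∃ p : ℕ, p.Prime ∧ W < p ∧ (p : ℝ) ^ 2 * (Y * Y₂) ≤ A * N ∧ (p : ℤ) ^ 2 ∣ dis t) →
    (F.card : ℝ) ≤ C / W * (Y * Y₂)) →
  (∀ κ : ℝ, 0 < κ → κ ≤ 1 → ∃ C N₀ : ℝ, 1 ≤ C ∧ ∀ N Y Y₂ : ℝ, N₀ ≤ N → Rg η_B N Y Y₂ → ∀ F : Finset Tpl,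
    (∀ t ∈ F, Cen κ N Y Y₂ t ∧ ∃ p : ℕ, p.Prime ∧ p ≠ 2 ∧ N ≤ (p : ℝ) ^ 2 * (Y * Y₂) ∧ (p : ℝ) ≤ (Y * Y₂ / N) ^ (-(1.05 : ℝ)) ∧
      (p : ℤ) ^ 2 ∣ dis t ∧ ((p : ℤ) ∣ t.2.2.2 ∨ (p : ℤ) ∣ lam t)) →
    (F.card : ℝ) ≤ C * (Y * Y₂ / N) ^ (1 / 8 : ℝ) * (Y * Y₂)) →
  (∃ C : ℝ, 1 ≤ C ∧ ∀ N R P : ℝ, 1 ≤ N → 1 ≤ R → 1 ≤ P → ∀ F : Finset Tpl, (∀ t ∈ F, TQ N (√N) (R * √N) t ∧
    ∃ (f : ℕ) (D₀ : ℤ), IsFund D₀ ∧ dis t = D₀ * (f : ℤ) ^ 2 ∧ 2 ≤ f ∧ ¬ f.Prime ∧ IsCoprime (f : ℤ) t.2.2.2 ∧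
      ∀ p : ℕ, p.Prime → p ∣ f → 5 < p ∧ P < p) → (F.card : ℝ) ≤ C * R / P ^ 2 * N) →
  (∃ C : ℝ, 1 ≤ C ∧ ∀ N R P : ℝ, 1 ≤ N → 1 ≤ R → 1 ≤ P → ∀ F : Finset Tpl, (∀ t ∈ F, TQ N (√N) (R * √N) t ∧
    ∃ (f : ℕ) (D₀ : ℤ), IsFund D₀ ∧ dis t = D₀ * (f : ℤ) ^ 2 ∧ (∀ p : ℕ, p.Prime → p ∣ f → 5 < p) ∧
      ∃ p : ℕ, p.Prime ∧ p ∣ f ∧ P < p) → (F.card : ℝ) ≤ C * R / P * N) →
  CND7_stmt

end Pool.Agent.T7
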